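import Pool.Agent.W966.Vf.Stms2

/-!
# VF-IDENT: second derivatives of a nondegenerate power series solution
-/

set_option autoImplicit false

namespace Pool.Agent.W230.VF

open MvPolynomial Module Pool.Agent.W966.Vf

/-- The coefficientwise extension of a derivation to power series. -/
noncomputable def ext {K Ω : Type} [Field K] [Field Ω] [Algebra K Ω] (D : Derivation K Ω Ω) :
    Derivation K (PowerSeries Ω) (PowerSeries Ω) :=
  Derivation.mk'
    { toFun := fun f => PowerSeries.mk fun n => D (PowerSeries.coeff n f)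
      map_add' := fun f g => by
        ext n
        simp
      map_smul' := fun r f => by
        ext n
        simp only [RingHom.id_apply, PowerSeries.coeff_mk, Algebra.smul_def,
          PowerSeries.algebraMap_apply, PowerSeries.coeff_C_mul]
        rw [D.leibniz, D.map_algebraMap]
        simp }
    (fun f g => by
      ext n
      simp only [LinearMap.coe_mk, AddHom.coe_mk, PowerSeries.coeff_mk, PowerSeries.coeff_mul,
        map_sum, D.leibniz, smul_eq_mul, map_add, Finset.sum_add_distrib]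
      congr 1
      rw [← Finset.Nat.sum_antidiagonal_swap]
      rfl)

section
variable {K Ω : Type} [Field K] [Field Ω] [Algebra K Ω] (D : Derivation K Ω Ω)

lemma ext_coeff (f : PowerSeries Ω) (n : ℕ) :
    PowerSeries.coeff n (ext D f) = D (PowerSeries.coeff n f) := by
  simp [ext]

lemma ext_C (r : Ω) : ext D (PowerSeries.C r) = PowerSeries.C (D r) := by
  ext n
  rw [ext_coeff, PowerSeries.coeff_C, PowerSeries.coeff_C]
  split_ifs <;> simp

lemma ext_const (f : PowerSeries Ω) :
    PowerSeries.constantCoeff (ext D f) = D (PowerSeries.constantCoeff f) := by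
  rw [← PowerSeries.coeff_zero_eq_constantCoeff_apply,
    ← PowerSeries.coeff_zero_eq_constantCoeff_apply, ext_coeff]

lemma ext_X : ext D PowerSeries.X = 0 := by
  ext n
  rw [ext_coeff, PowerSeries.coeff_X]
  split_ifs <;> simp

lemma ext_X_pow (e : ℕ) : ext D (PowerSeries.X ^ e) = 0 := by
  rw [Derivation.leibniz_pow, ext_X]
  simp

lemma ext_CX (r : Ω) (e : ℕ) : ext D (PowerSeries.C r * PowerSeries.X ^ e) =
    PowerSeries.C (D r) * PowerSeries.X ^ e := by
  rw [Derivation.leibniz, ext_X_pow, ext_C]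
  simp [mul_comm]

lemma ext_algebraMap_mul (r : K) (f : PowerSeries Ω) :
    ext D (algebraMap K (PowerSeries Ω) r * f) = algebraMap K (PowerSeries Ω) r * ext D f := by
  rw [← Algebra.smul_def, Derivation.map_smul, Algebra.smul_def]

end

/-- Value of the linear part. -/
noncomputable def lin {K N S : Type} [CommRing K] [CommRing S] [Algebra K S] [Fintype N]
    (f : AF K N) (w : N → S) : S := ∑ s, algebraMap K S (f.2 s) * w s

lemma ext_val {K Ω N : Type} [Field K] [Field Ω] [Algebra K Ω] [Fintype N] (D : Derivation K Ω Ω)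
    (f : AF K N) (w : N → PowerSeries Ω) :
    ext D (f.val w) = lin f (fun s => ext D (w s)) := by
  unfold AF.val lin
  rw [map_add, Derivation.map_algebraMap, zero_add, map_sum]
  exact Finset.sum_congr rfl fun s _ => ext_algebraMap_mul D _ _

lemma ext_lin {K Ω N : Type} [Field K] [Field Ω] [Algebra K Ω] [Fintype N] (D : Derivation K Ω Ω)
    (f : AF K N) (w : N → PowerSeries Ω) :
    ext D (lin f w) = lin f (fun s => ext D (w s)) := by
  unfold lin
  rw [map_sum]
  exact Finset.sum_congr rfl fun s _ => ext_algebraMap_mul D _ _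

/-- Inverse up to a scalar on the other side. -/
lemma inv_comm {n A : Type} [Fintype n] [DecidableEq n] [CommRing A] [IsDomain A]
    (P Q : Matrix n n A) (r : A) (hr : r ≠ 0) (h : P * Q = r • (1 : Matrix n n A)) :
    Q * P = r • (1 : Matrix n n A) := by
  have hdet : Q.det ≠ 0 := by
    intro h0
    have := congrArg Matrix.det h
    rw [Matrix.det_mul, h0, mul_zero, Matrix.det_smul, Matrix.det_one, mul_one] at this
    exact pow_ne_zero _ hr this.symm
  have h1 : (Q * P - r • (1 : Matrix n n A)) * Q = 0 := by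
    rw [sub_mul, Matrix.mul_assoc, h]
    simp
  have h2 := congrArg (fun M => M * Q.adjugate) h1
  simp only [Matrix.mul_assoc, Matrix.mul_adjugate, Matrix.zero_mul] at h2
  rw [Matrix.mul_smul, Matrix.mul_one] at h2
  have h3 : Q * P - r • (1 : Matrix n n A) = 0 := by
    ext i j
    have := congrFun (congrFun h2 i) j
    simp only [Matrix.smul_apply, smul_eq_mul, Matrix.zero_apply] at this
    exact (mul_eq_zero.mp this).resolve_left hdet
  exact sub_eq_zero.mp h3

/-- chain rule for polynomials in elements with `D y j = δ`. -/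
lemma chain {K ι Ω : Type} [Field K] [Field Ω] [Algebra K Ω] [DecidableEq ι] (y : ι → Ω) (i : ι)
    (D : Derivation K Ω Ω) (hD : ∀ j, D (y j) = if j = i then 1 else 0) (Φ : MvPolynomial ι K) :
    D (aeval y Φ) = aeval y (pderiv i Φ) := by
  induction Φ using MvPolynomial.induction_on with
  | C a => simp
  | add p q hp hq => simp [hp, hq]
  | mul_X p j hp =>
    rw [map_mul, D.leibniz, aeval_X, hD, hp, (pderiv i).leibniz, pderiv_X]
    simp only [smul_eq_mul, map_add, map_mul, aeval_X, Pi.single_apply]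
    congr 2
    by_cases h : j = i
    · subst h; simp
    · rw [if_neg h, if_neg (fun h' => h h')]; simp

/-- The full Jacobian. -/
noncomputable def Jf {K N S J B : Type} [CommRing K] [CommRing S] [Algebra K S] [Fintype N]
    [Fintype J] (α β δ : J → AF K N) (c : B → J → K) (w : N → S) (b : B) (s : N) : S :=
  ∑ j, algebraMap K S (c b j) * (algebraMap K S ((α j).2 s) * (β j).val w +
    (α j).val w * algebraMap K S ((β j).2 s) - algebraMap K S ((δ j).2 s))

lemma Jf_sum {K N S J B : Type} [CommRing K] [CommRing S] [Algebra K S] [Fintype N]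
    [Fintype J] (α β δ : J → AF K N) (c : B → J → K) (w v : N → S) (b : B) :
    ∑ s, Jf α β δ c w b s * v s = ∑ j, algebraMap K S (c b j) *
      ((β j).val w * lin (α j) v + (α j).val w * lin (β j) v - lin (δ j) v) := by
  simp only [Jf, Finset.sum_mul]
  rw [Finset.sum_comm]
  refine Finset.sum_congr rfl fun j _ => ?_
  simp only [lin, Finset.mul_sum, ← Finset.sum_add_distrib, ← Finset.sum_sub_distrib]
  refine Finset.sum_congr rfl fun s _ => ?_
  ring

lemma first {K Ω N J B : Type} [Field K] [Field Ω] [Algebra K Ω] [Fintype N] [Fintype J]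
    (α β δ : J → AF K N) (c : B → J → K) (w : N → PowerSeries Ω) (b : B)
    (D : Derivation K Ω Ω) :
    ext D (∑ j, algebraMap K (PowerSeries Ω) (c b j) *
      ((α j).val w * (β j).val w - (δ j).val w)) =
      ∑ s, Jf α β δ c w b s * ext D (w s) := by
  rw [Jf_sum, map_sum]
  refine Finset.sum_congr rfl fun j _ => ?_
  rw [ext_algebraMap_mul, map_sub, Derivation.leibniz, ext_val, ext_val, ext_val]
  simp only [smul_eq_mul]
  ring

lemma second {K Ω N J B : Type} [Field K] [Field Ω] [Algebra K Ω] [Fintype N] [Fintype J]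
    (α β δ : J → AF K N) (c : B → J → K) (w : N → PowerSeries Ω) (b : B)
    (D D' : Derivation K Ω Ω) :
    ext D (ext D' (∑ j, algebraMap K (PowerSeries Ω) (c b j) *
      ((α j).val w * (β j).val w - (δ j).val w))) =
      ∑ s, Jf α β δ c w b s * ext D (ext D' (w s)) +
      ∑ j, algebraMap K (PowerSeries Ω) (c b j) *
        (ext D ((α j).val w) * ext D' ((β j).val w) +
          ext D' ((α j).val w) * ext D ((β j).val w)) := by
  rw [Jf_sum, map_sum, map_sum, ← Finset.sum_add_distrib]
  refine Finset.sum_congr rfl fun j _ => ?_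
  rw [ext_algebraMap_mul, ext_algebraMap_mul, map_sub, map_sub, Derivation.leibniz, map_add]
  simp only [smul_eq_mul]
  rw [Derivation.leibniz, Derivation.leibniz]
  simp only [ext_val, ext_lin, smul_eq_mul]
  ring

lemma swap {A B J κ : Type} [CommRing A] [Fintype B] [Fintype J] [Fintype κ] (W : B → A)
    (cc : B → J → A) (P : J → A) (M : B → κ → A) (H : κ → A) :
    - ∑ b, W b * (∑ t, M b t * H t + ∑ j, cc b j * P j) =
      ∑ j, (- ∑ b, W b * cc b j) * P j + ∑ t, (- ∑ b, W b * M b t) * H t := by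
  simp only [neg_mul, Finset.sum_neg_distrib, Finset.sum_mul, mul_add, Finset.sum_add_distrib,
    Finset.mul_sum]
  rw [Finset.sum_comm (γ := B) (α := J), Finset.sum_comm (γ := B) (α := κ)]
  simp only [mul_assoc]
  ring

theorem ident (hder : S_DER) : S_IDENT := by
  classical
  intro K F Ω ι κ σ J _ _ _ _ _ _ _ _ _ _ _ _ x a T w₀ g γ e α β δ c hx hw hg heq
  set w := pt x a T w₀ g with hwdef
  -- derivations
  have hF0 : CharZero F := charZero_of_injective_algebraMap (algebraMap K F).injective
  have hx' : AlgebraicIndependent K (fun i => algebraMap F Ω (x i)) :=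
    (hx.map' (f := IsScalarTower.toAlgHom K F Ω) (algebraMap F Ω).injective)
  have hall : AlgebraicIndependent K (Sum.elim (Sum.elim (fun s : T => w₀ s) γ)
      (fun i => algebraMap F Ω (x i))) :=
    AlgebraicIndependent.sumElim_of_tower (S := F) hx'
      (by rintro _ ⟨i, rfl⟩; exact ⟨x i, rfl⟩) hw
  have hDi : ∀ i : ι, ∃ D : Derivation K Ω Ω, (∀ j, D (algebraMap F Ω (x j)) =
      if j = i then 1 else 0) ∧ (∀ s : T, D (w₀ s) = 0) ∧ ∀ b, D (γ b) = 0 := by
    intro i
    obtain ⟨D, hD⟩ := hder K ((T ⊕ ↥(Tᶜ)) ⊕ ι) Ω _ hall (Sum.inr i)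
    refine ⟨D, fun j => ?_, fun s => ?_, fun b => ?_⟩
    · simpa using hD (Sum.inr j)
    · simpa using hD (Sum.inl (Sum.inl s))
    · simpa using hD (Sum.inl (Sum.inr b))
  choose D hDx hDT hDγ using hDi
  have hdb : ∀ b : ↥(Tᶜ), ∃ d : Derivation F Ω Ω, (∀ s : T, d (w₀ s) = 0) ∧
      ∀ b', d (γ b') = if b' = b then 1 else 0 := by
    intro b
    obtain ⟨d, hd⟩ := hder F (T ⊕ ↥(Tᶜ)) Ω _ hw (Sum.inr b)
    refine ⟨d, fun s => ?_, fun b' => ?_⟩
    · simpa using hd (Sum.inl s)
    · simpa using hd (Sum.inr b')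
  choose d hdT hdγ using hdb
  -- the point
  have hwl : ∀ i, w (Sum.inl i) = PowerSeries.C (algebraMap F Ω (x i)) := fun i => rfl
  have hwm : ∀ t, w (Sum.inr (Sum.inl t)) = PowerSeries.C (algebraMap F Ω (a t)) := fun t => rfl
  have hwT : ∀ s, s ∈ T → w (Sum.inr (Sum.inr s)) = PowerSeries.C (w₀ s) := by
    intro s hs
    have : w (Sum.inr (Sum.inr s)) = PowerSeries.C (w₀ s) +
      if h : s ∈ Tᶜ then g ⟨s, h⟩ else 0 := rfl
    rw [this, dif_neg (by simpa using hs), add_zero]
  set Jm : Matrix ↥(Tᶜ) ↥(Tᶜ) (PowerSeries Ω) := fun b s =>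
    Jf α β δ c w b (Sum.inr (Sum.inr s.1)) with hJm
  set Wm : Matrix ↥(Tᶜ) ↥(Tᶜ) (PowerSeries Ω) := fun s b =>
    ext ((d b).restrictScalars K) (w (Sum.inr (Sum.inr s.1))) with hWm
  have hsplit : ∀ f : ι ⊕ κ ⊕ σ → PowerSeries Ω, (∀ s ∈ T, f (Sum.inr (Sum.inr s)) = 0) →
      ∑ s, f s = ∑ i, f (Sum.inl i) + ∑ t, f (Sum.inr (Sum.inl t)) +
        ∑ s : ↥(Tᶜ), f (Sum.inr (Sum.inr s.1)) := by
    intro f hf
    rw [Fintype.sum_sum_type, Fintype.sum_sum_type, add_assoc]
    congr 2
    have h1 : ∑ s : ↥(Tᶜ), f (Sum.inr (Sum.inr s.1)) =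
        ∑ s ∈ Finset.univ.filter (fun s => s ∈ Tᶜ), f (Sum.inr (Sum.inr s)) := by
      rw [← Finset.sum_subtype_eq_sum_filter]
      refine Finset.sum_bij' (fun s _ => ⟨s.1, s.2⟩) (fun s _ => ⟨s.1, s.2⟩) ?_ ?_ ?_ ?_ ?_ <;>
        simp
    rw [h1, Finset.sum_filter]
    refine Finset.sum_congr rfl fun s _ => ?_
    by_cases hs : s ∈ T
    · rw [hf s hs]; simp
    · rw [if_pos (by simpa using hs)]
  have hJW : Jm * Wm = (PowerSeries.X ^ e : PowerSeries Ω) • (1 : Matrix ↥(Tᶜ) ↥(Tᶜ) _) := by
    ext1 b' b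
    have h1 := first α β δ c w b' ((d b).restrictScalars K)
    rw [heq b', ext_CX] at h1
    rw [hsplit] at h1
    · rw [Matrix.mul_apply, Matrix.smul_apply, Matrix.one_apply]
      have h2 : ((d b).restrictScalars K) (γ b') = if b' = b then 1 else 0 := hdγ b b'
      rw [h2] at h1
      have h3 : ∀ y : F, ext ((d b).restrictScalars K) (PowerSeries.C (algebraMap F Ω y)) = 0 := by
        intro y
        rw [ext_C]
        have : ((d b).restrictScalars K) (algebraMap F Ω y) = 0 := (d b).map_algebraMap y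
        rw [this, map_zero]
      simp only [hwl, hwm, h3, mul_zero, Finset.sum_const_zero, zero_add] at h1
      rw [← h1]
      split_ifs <;> simp
    · intro s hs
      rw [hwT s hs, ext_C]
      have : ((d b).restrictScalars K) (w₀ s) = 0 := hdT b ⟨s, hs⟩
      rw [this, map_zero, mul_zero]
  have hWJ := inv_comm Jm Wm _ (pow_ne_zero e PowerSeries.X_ne_zero) hJW
  set E : (ι ⊕ κ ⊕ σ) → ι → ι → PowerSeries Ω := fun s i i' => ext (D i) (ext (D i') (w s)) with hE
  set p : J → ι → PowerSeries Ω := fun j i => ext (D i) ((α j).val w) with hp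
  set q : J → ι → PowerSeries Ω := fun j i => ext (D i) ((β j).val w) with hq
  have hEx : ∀ j i i', E (Sum.inl j) i i' = 0 := by
    intro j i i'
    simp only [hE, hwl, ext_C, hDx]
    split_ifs <;> simp
  have hET : ∀ s ∈ T, ∀ i i', E (Sum.inr (Sum.inr s)) i i' = 0 := by
    intro s hs i i'
    simp only [hE, hwT s hs, ext_C, hDT i' ⟨s, hs⟩, map_zero]
  have hmain : ∀ b i i', ∑ s, Jm b s * E (Sum.inr (Sum.inr s.1)) i i' =
      - (∑ t, Jf α β δ c w b (Sum.inr (Sum.inl t)) * E (Sum.inr (Sum.inl t)) i i' +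
        ∑ j, algebraMap K (PowerSeries Ω) (c b j) * (p j i * q j i' + p j i' * q j i)) := by
    intro b i i'
    have h1 := second α β δ c w b (D i) (D i')
    rw [heq b, ext_CX, hDγ, map_zero, zero_mul, map_zero, hsplit] at h1
    · have h2 : ∑ j, Jf α β δ c w b (Sum.inl j) * ext (D i) (ext (D i') (w (Sum.inl j))) = 0 :=
        Finset.sum_eq_zero fun j _ => by
          have := hEx j i i'
          simp only [hE] at this
          rw [this, mul_zero]
      rw [h2, zero_add] at h1
      simp only [hE, hp, hq, hJm]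
      linear_combination -h1
    · intro s hs
      have := hET s hs i i'
      simp only [hE] at this
      rw [this, mul_zero]
  have hsolve : ∀ (s : ↥(Tᶜ)) i i', PowerSeries.X ^ e * E (Sum.inr (Sum.inr s.1)) i i' =
      - ∑ b, Wm s b * (∑ t, Jf α β δ c w b (Sum.inr (Sum.inl t)) * E (Sum.inr (Sum.inl t)) i i' +
        ∑ j, algebraMap K (PowerSeries Ω) (c b j) * (p j i * q j i' + p j i' * q j i)) := by
    intro s i i'
    have h1 : ∑ b, Wm s b * ∑ s', Jm b s' * E (Sum.inr (Sum.inr s'.1)) i i' =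
        PowerSeries.X ^ e * E (Sum.inr (Sum.inr s.1)) i i' := by
      have h2 : ∀ s', ∑ b, Wm s b * Jm b s' = if s = s' then PowerSeries.X ^ e else 0 := by
        intro s'
        have := congrFun (congrFun hWJ s) s'
        rw [Matrix.mul_apply, Matrix.smul_apply, Matrix.one_apply] at this
        rw [this]
        split_ifs <;> simp
      simp only [Finset.mul_sum, ← mul_assoc]
      rw [Finset.sum_comm]
      simp only [← Finset.sum_mul, h2, ite_mul, zero_mul, Finset.sum_ite_eq, Finset.mem_univ,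
        if_true]
    rw [← h1, ← Finset.sum_neg_distrib]
    refine Finset.sum_congr rfl fun b _ => ?_
    rw [hmain]
    ring
  refine ⟨p, q, fun t i i' => E (Sum.inr (Sum.inl t)) i i',
    Sum.elim (fun _ _ => 0) (Sum.elim (fun _ _ => 0)
      (fun s j => if h : s ∈ Tᶜ then - ∑ b, Wm ⟨s, h⟩ b * algebraMap K (PowerSeries Ω) (c b j)
        else 0)),
    Sum.elim (fun _ _ => 0) (Sum.elim (fun t t' => if t' = t then PowerSeries.X ^ e else 0)
      (fun s t => if h : s ∈ Tᶜ then - ∑ b, Wm ⟨s, h⟩ b * Jf α β δ c w b (Sum.inr (Sum.inl t))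
        else 0)), E, ?_, ?_, ?_⟩
  · intro j hj i
    simp only [hp, hj]
    have : AF.val (0 : AF K (ι ⊕ κ ⊕ σ)) w = 0 := by
      simp [AF.val]
    rw [this, map_zero]
  · rintro (s | s | s) i i'
    · simp [hEx]
    · simp
    · by_cases hs : s ∈ T
      · rw [hET s hs]
        simp [hs]
      · have hs' : s ∈ Tᶜ := hs
        rw [hsolve ⟨s, hs'⟩]
        simp only [Sum.elim_inr, dif_pos hs']
        exact swap (fun b => Wm ⟨s, hs'⟩ b) (fun b j => algebraMap K (PowerSeries Ω) (c b j))
          (fun j => p j i * q j i' + p j i' * q j i)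
          (fun b t => Jf α β δ c w b (Sum.inr (Sum.inl t)))
          (fun t => E (Sum.inr (Sum.inl t)) i i')
  · intro o Φ hΦ i i'
    have h1 : ∑ s, algebraMap K (PowerSeries Ω) (o.2 s) * E s i i' =
        ext (D i) (ext (D i') (o.val w)) := by
      rw [ext_val, ext_lin]
      rfl
    rw [h1, ext_const, ext_const, hΦ]
    have h2 : algebraMap F Ω (aeval x Φ) = aeval (fun i => algebraMap F Ω (x i)) Φ :=
      (MvPolynomial.aeval_algebraMap_apply Ω x Φ).symm
    have h3 : algebraMap F Ω (aeval x (pderiv i (pderiv i' Φ))) =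
        aeval (fun i => algebraMap F Ω (x i)) (pderiv i (pderiv i' Φ)) :=
      (MvPolynomial.aeval_algebraMap_apply Ω x _).symm
    rw [h2, h3, chain _ i' (D i') (hDx i'), chain _ i (D i) (hDx i)]

end Pool.Agent.W230.VF
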